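import Mathlib
import Pool.Agent.TH66.HF.Mt
import Pool.Agent.TH66.HF.Hd2
import Pool.Agent.TH66.HF.Reg

set_option autoImplicit false

namespace Pool.Agent.Results.MP_3038d1_co.HadamardPrimeFactors

open Filter Topology

/-- The blocks `B i` form a symmetric `(4 n - 1, 2 n - 1, n - 1)` design (a Hadamard design of order
`n`) on the points `Fin (4 n - 1)`, and `H` is a group of automorphisms of it. -/
structure IsHadamardDesign (n : ℕ) (B : Fin (4 * n - 1) → Finset (Fin (4 * n - 1)))
    (H : Subgroup (Equiv.Perm (Fin (4 * n - 1)))) : Prop where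
  two_le : 2 ≤ n
  size : ∀ i, (B i).card = 2 * n - 1
  pair : ∀ x y : Fin (4 * n - 1), x ≠ y →
    (Finset.univ.filter (fun i => x ∈ B i ∧ y ∈ B i)).card = n - 1
  aut : ∀ h ∈ H, ∀ i, ∃ j, (B i).image h = B j

/-- There is a Hadamard design of order `n` with a solvable group of automorphisms that is transitive
on the points. -/
def HasSolvableTransitive (n : ℕ) : Prop :=
  ∃ (B : Fin (4 * n - 1) → Finset (Fin (4 * n - 1))) (H : Subgroup (Equiv.Perm (Fin (4 * n - 1)))),
    IsHadamardDesign n B H ∧ (∀ x y, ∃ h ∈ H, h x = y) ∧ Group.IsSolvable H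

/-- There is a Hadamard design of order `n` with a group of automorphisms that is regular (sharply
transitive) on the points. -/
def HasRegular (n : ℕ) : Prop :=
  ∃ (B : Fin (4 * n - 1) → Finset (Fin (4 * n - 1))) (H : Subgroup (Equiv.Perm (Fin (4 * n - 1)))),
    IsHadamardDesign n B H ∧
      ∀ x y, ∃! h : Equiv.Perm (Fin (4 * n - 1)), h ∈ H ∧ h x = y

/-- There is a Hadamard design of order `n` with a nilpotent (for instance abelian) group of
automorphisms that is regular on the points. -/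
def HasNilpotentRegular (n : ℕ) : Prop :=
  ∃ (B : Fin (4 * n - 1) → Finset (Fin (4 * n - 1))) (H : Subgroup (Equiv.Perm (Fin (4 * n - 1)))),
    IsHadamardDesign n B H ∧
      (∀ x y, ∃! h : Equiv.Perm (Fin (4 * n - 1)), h ∈ H ∧ h x = y) ∧ Group.IsNilpotent H

/-- Let `j ≥ 1`. Among the integers `N ≤ X` with exactly `j` prime factors (counted with multiplicity;
for `j = 1`: among the primes), the proportion of those for which
* there is a symmetric `(4 N - 1, 2 N - 1, N - 1)` design with a group of automorphisms that is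
  solvable and transitive on the points, or that is regular on the points, or
* there is a symmetric `(4 N ^ 2 - 1, 2 N ^ 2 - 1, N ^ 2 - 1)` design with a nilpotent group of
  automorphisms that is regular on the points,
tends to `0` as `X → ∞`. -/
theorem result (j : ℕ) (hj : 1 ≤ j) :
    Tendsto (fun X : ℕ =>
      ({N : ℕ | N ≤ X ∧ N.primeFactorsList.length = j ∧
          (HasSolvableTransitive N ∨ HasRegular N ∨ HasNilpotentRegular (N ^ 2))}.ncard : ℝ) /
        ({N : ℕ | N ≤ X ∧ N.primeFactorsList.length = j}.ncard : ℝ)) atTop (𝓝 0) := by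
  have h1 := Pool.Agent.TH66.HF.main4 j hj
  have h2 := Pool.Agent.TH66.HF.main5 j hj
  have h3 := h1.add h2
  rw [add_zero] at h3
  refine squeeze_zero (fun X => by positivity) (fun X => ?_) h3
  rw [← add_div]
  apply div_le_div_of_nonneg_right _ (Nat.cast_nonneg _)
  have hfin : ∀ P : ℕ → Prop, ({N : ℕ | N ≤ X ∧ N.primeFactorsList.length = j ∧ P N} : Set ℕ).Finite :=
    fun P => (Set.finite_Iic X).subset fun N hN => hN.1
  have hsub : ({N : ℕ | N ≤ X ∧ N.primeFactorsList.length = j ∧
          (HasSolvableTransitive N ∨ HasRegular N ∨ HasNilpotentRegular (N ^ 2))} : Set ℕ) ⊆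
      {N : ℕ | N ≤ X ∧ N.primeFactorsList.length = j ∧ Pool.Agent.TH66.HF.HasHad N} ∪
      {N : ℕ | N ≤ X ∧ N.primeFactorsList.length = j ∧ Pool.Agent.TH66.HF.HasHadNil (N ^ 2)} := by
    rintro N ⟨hN, hl, h | h | h⟩
    · left
      obtain ⟨B, H, h, htr, hsolv⟩ := h
      have h2 := h.two_le
      exact ⟨hN, hl, h2, Or.inl ⟨B, H, ⟨by omega, h.size, h.pair, htr, h.aut, hsolv⟩⟩⟩
    · left
      obtain ⟨B, H, h, hreg⟩ := h
      have h2 := h.two_le
      obtain ⟨-, G, i1, i2, i3, D, -, h5, h6⟩ := Pool.Agent.TH66.HF.regdesign_ds'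
        (v := 4 * N - 1) (k := 2 * N - 1) (lam := N - 1) (B := B) (H := H)
        ⟨by omega, h.size, h.pair, hreg, h.aut⟩ (by omega) (by omega)
      exact ⟨hN, hl, h2, Or.inr ⟨G, i1, i2, i3, D, h5, h6⟩⟩
    · right
      obtain ⟨B, H, h, hreg, hnil⟩ := h
      have h2 := h.two_le
      obtain ⟨-, G, i1, i2, i3, D, h4, h5, h6⟩ := Pool.Agent.TH66.HF.regdesign_ds'
        (v := 4 * N ^ 2 - 1) (k := 2 * N ^ 2 - 1) (lam := N ^ 2 - 1) (B := B) (H := H)
        ⟨by omega, h.size, h.pair, hreg, h.aut⟩ (by omega) (by omega)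
      exact ⟨hN, hl, h2, G, i1, i2, i3, D, h4 hnil, h5, h6⟩
  have h4 := (Set.ncard_le_ncard hsub ((hfin _).union (hfin _))).trans (Set.ncard_union_le _ _)
  exact_mod_cast h4

end Pool.Agent.Results.MP_3038d1_co.HadamardPrimeFactors
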